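import Pool.Agent.Helper98K9.CP.St

set_option autoImplicit false

namespace Pool.Agent.Helper98K9.CP

namespace AutL

theorem par_iter (b n : ℕ) (x : Vt) : (par b)^[n] x = (x.1 + n, x.2 / b ^ n) := by
  induction n generalizing x with
  | zero => simp
  | succ n ih =>
    rw [Function.iterate_succ_apply, ih]
    simp only [par, Prod.mk.injEq]
    refine ⟨by push_cast; ring, ?_⟩
    rw [Nat.div_div_eq_div_mul, pow_succ, mul_comm]

/-- permute the vertices of level `j` by `f` and move their subtrees accordingly -/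
def tau (b : ℕ) (j : ℤ) (f : ℕ → ℕ) (y : Vt) : Vt :=
  if y.1 ≤ j then (y.1, f (y.2 / b ^ (j - y.1).toNat) * b ^ (j - y.1).toNat
    + y.2 % b ^ (j - y.1).toNat) else y

theorem tau_fst (b : ℕ) (j : ℤ) (f : ℕ → ℕ) (y : Vt) : (tau b j f y).1 = y.1 := by
  unfold tau; split_ifs <;> rfl

theorem tau_tau {b : ℕ} (hb : 2 ≤ b) (j : ℤ) (f g : ℕ → ℕ) (h : ∀ x, f (g x) = x) (y : Vt) :
    tau b j f (tau b j g y) = y := by
  have hB : 0 < b ^ (j - y.1).toNat := by positivity
  by_cases hy : y.1 ≤ j
  · have e1 : tau b j g y = (y.1, g (y.2 / b ^ (j - y.1).toNat) * b ^ (j - y.1).toNat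
      + y.2 % b ^ (j - y.1).toNat) := by unfold tau; rw [if_pos hy]
    rw [e1]
    unfold tau
    simp only [if_pos hy]
    have e2 : (g (y.2 / b ^ (j - y.1).toNat) * b ^ (j - y.1).toNat
      + y.2 % b ^ (j - y.1).toNat) / b ^ (j - y.1).toNat = g (y.2 / b ^ (j - y.1).toNat) := by
      rw [mul_comm, Nat.mul_add_div hB, Nat.div_eq_of_lt (Nat.mod_lt _ hB), add_zero]
    have e3 : (g (y.2 / b ^ (j - y.1).toNat) * b ^ (j - y.1).toNat
      + y.2 % b ^ (j - y.1).toNat) % b ^ (j - y.1).toNat = y.2 % b ^ (j - y.1).toNat := by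
      rw [mul_comm, Nat.mul_add_mod, Nat.mod_mod]
    rw [e2, e3, h, mul_comm, Nat.div_add_mod]
  · have e1 : tau b j g y = y := by unfold tau; rw [if_neg hy]
    rw [e1]; unfold tau; rw [if_neg hy]

theorem tau_par {b : ℕ} (hb : 2 ≤ b) (j : ℤ) (f : ℕ → ℕ) (h : ∀ x, f x / b = x / b) (y : Vt) :
    tau b j f (par b y) = par b (tau b j f y) := by
  have hb0 : 0 < b := by omega
  rcases lt_trichotomy y.1 j with hy | hy | hy
  · have h1 : (par b y).1 ≤ j := by simp only [par]; omega
    obtain ⟨d, hd⟩ : ∃ d : ℕ, (j - y.1).toNat = d + 1 := ⟨(j - y.1).toNat - 1, by omega⟩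
    have hd' : (j - (par b y).1).toNat = d := by simp only [par]; omega
    have e1 : tau b j f (par b y) = ((par b y).1, f ((par b y).2 / b ^ d) * b ^ d
      + (par b y).2 % b ^ d) := by unfold tau; rw [if_pos h1, hd']
    have e2 : tau b j f y = (y.1, f (y.2 / b ^ (d + 1)) * b ^ (d + 1)
      + y.2 % b ^ (d + 1)) := by unfold tau; rw [if_pos hy.le, hd]
    rw [e1, e2]
    simp only [par, Prod.mk.injEq, true_and]
    have e3 : y.2 / b / b ^ d = y.2 / b ^ (d + 1) := by
      rw [Nat.div_div_eq_div_mul, pow_succ, mul_comm]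
    have e4 : (f (y.2 / b ^ (d + 1)) * b ^ (d + 1) + y.2 % b ^ (d + 1)) / b
        = f (y.2 / b ^ (d + 1)) * b ^ d + (y.2 % b ^ (d + 1)) / b := by
      have : f (y.2 / b ^ (d + 1)) * b ^ (d + 1) = b * (f (y.2 / b ^ (d + 1)) * b ^ d) := by
        rw [pow_succ]; ring
      rw [this, Nat.mul_add_div hb0]
    have e5 : (y.2 % b ^ (d + 1)) / b = (y.2 / b) % b ^ d := by
      rw [pow_succ, mul_comm (b ^ d) b, Nat.mod_mul_right_div_self]
    rw [e3, e4, e5]
  · have h1 : ¬ (par b y).1 ≤ j := by simp only [par]; omega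
    have h0 : (j - y.1).toNat = 0 := by omega
    have e1 : tau b j f (par b y) = par b y := by unfold tau; rw [if_neg h1]
    have e2 : tau b j f y = (y.1, f y.2) := by
      unfold tau; rw [if_pos hy.le, h0]; simp [Nat.mod_one]
    rw [e1, e2]
    simp only [par, h]
  · have h1 : ¬ (par b y).1 ≤ j := by simp only [par]; omega
    have e1 : tau b j f (par b y) = par b y := by unfold tau; rw [if_neg h1]
    have e2 : tau b j f y = y := by unfold tau; rw [if_neg (by omega)]
    rw [e1, e2]

theorem level {b : ℕ} (hb : 2 ≤ b) : ∀ (N : ℕ) (u w : Vt), (par b)^[N] u = (par b)^[N] w →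
    ∃ σ : Vt ≃ Vt, (∀ y, σ (par b y) = par b (σ y)) ∧ σ u = w ∧ ∀ y, (σ y).1 = y.1 := by
  intro N
  induction N with
  | zero => intro u w h; exact ⟨Equiv.refl _, fun y => rfl, h, fun y => rfl⟩
  | succ N ih =>
    intro u w h
    rw [Function.iterate_succ_apply', Function.iterate_succ_apply'] at h
    have hl : ((par b)^[N] u).1 = ((par b)^[N] w).1 := by
      have := congrArg Prod.fst h
      simp only [par] at this; omega
    have hs : ((par b)^[N] u).2 / b = ((par b)^[N] w).2 / b := congrArg Prod.snd h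
    set m := ((par b)^[N] u).2 with hm
    set m' := ((par b)^[N] w).2 with hm'
    set j := ((par b)^[N] u).1 with hj
    have hsw : ∀ x, (Equiv.swap m m') x / b = x / b := by
      intro x
      by_cases h1 : x = m
      · subst h1; rw [Equiv.swap_apply_left]; exact hs.symm
      · by_cases h2 : x = m'
        · subst h2; rw [Equiv.swap_apply_right]; exact hs
        · rw [Equiv.swap_apply_of_ne_of_ne h1 h2]
    let τ : Vt ≃ Vt :=
      { toFun := tau b j (Equiv.swap m m')
        invFun := tau b j (Equiv.swap m m')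
        left_inv := tau_tau hb j _ _ (fun x => by simp)
        right_inv := tau_tau hb j _ _ (fun x => by simp) }
    have hτ : ∀ y, τ (par b y) = par b (τ y) := tau_par hb j _ hsw
    have hτi : ∀ (n : ℕ) (y : Vt), τ ((par b)^[n] y) = (par b)^[n] (τ y) := by
      intro n
      induction n with
      | zero => intro y; rfl
      | succ n ihn => intro y; rw [Function.iterate_succ_apply', hτ, ihn,
          Function.iterate_succ_apply']
    have h3 : τ ((par b)^[N] u) = (par b)^[N] w := by
      have : τ ((par b)^[N] u) = (j, m') := by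
        show tau b j (Equiv.swap m m') ((par b)^[N] u) = (j, m')
        unfold tau
        rw [if_pos (le_refl _), sub_self]
        simp only [Int.toNat_zero, pow_zero, Nat.div_one, mul_one, Nat.mod_one, add_zero, ← hm,
          Equiv.swap_apply_left]
        rfl
      rw [this]
      exact Prod.ext hl rfl
    obtain ⟨σ, h4, h5, h6⟩ := ih (τ u) w (by rw [← hτi]; exact h3)
    exact ⟨τ.trans σ, fun y => by simp only [Equiv.trans_apply]; rw [hτ, h4],
      by simp only [Equiv.trans_apply]; exact h5,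
      fun y => by simp only [Equiv.trans_apply]; rw [h6]; exact tau_fst b j _ y⟩

end AutL

/-- [AUT] -/
theorem aut : S_AUT := by
  intro b hb u w
  let s : Vt ≃ Vt :=
    { toFun := fun y => (y.1 + (w.1 - u.1), y.2)
      invFun := fun y => (y.1 - (w.1 - u.1), y.2)
      left_inv := fun y => by simp
      right_inv := fun y => by simp }
  have hs : ∀ y, s (par b y) = par b (s y) := fun y => by
    simp only [par, s, Equiv.coe_fn_mk, Prod.mk.injEq, and_true]; ring
  have hsu : s u = (w.1, u.2) := by simp [s]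
  have hcom : (par b)^[u.2 + w.2 + 1] (s u) = (par b)^[u.2 + w.2 + 1] w := by
    rw [AutL.par_iter, AutL.par_iter, hsu]
    have h1 : u.2 / b ^ (u.2 + w.2 + 1) = 0 := Nat.div_eq_of_lt
      (lt_of_lt_of_le (Nat.lt_pow_self (by omega)) (Nat.pow_le_pow_right (by omega) (by omega)))
    have h2 : w.2 / b ^ (u.2 + w.2 + 1) = 0 := Nat.div_eq_of_lt
      (lt_of_lt_of_le (Nat.lt_pow_self (by omega)) (Nat.pow_le_pow_right (by omega) (by omega)))
    simp only [h1, h2]
  obtain ⟨σ, h4, h5, h6⟩ := AutL.level hb _ (s u) w hcom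
  refine ⟨s.trans σ, fun y => ?_, ?_, fun y => ?_⟩
  · simp only [Equiv.trans_apply]; rw [hs, h4]
  · simp only [Equiv.trans_apply]; exact h5
  · simp only [Equiv.trans_apply]; rw [h6]; rfl

end Pool.Agent.Helper98K9.CP
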