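import Pool.Agent.Helper98K9.CP.Basic

set_option autoImplicit false

namespace Pool.Agent.Helper98K9.CP

open MeasureTheory ProbabilityTheory
open scoped ENNReal NNReal

namespace BkL

theorem sum_le {Ω ι : Type} [MeasurableSpace Ω] (μ : Measure Ω) [IsProbabilityMeasure μ]
    (S : Finset ι) (A : ι → Set Ω) (hA : ∀ i, MeasurableSet (A i)) (N : ℕ)
    (h : ∀ ω, ({i | i ∈ S ∧ ω ∈ A i} : Set ι).ncard ≤ N) : ∑ i ∈ S, μ.real (A i) ≤ N := by
  classical
  have h1 : ∀ i, μ.real (A i) = ∫ ω, (A i).indicator (fun _ => (1 : ℝ)) ω ∂μ := by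
    intro i
    rw [integral_indicator (hA i)]
    simp
  have hint : ∀ i ∈ S, Integrable ((A i).indicator (fun _ => (1 : ℝ))) μ :=
    fun i _ => (integrable_const (1 : ℝ)).indicator (hA i)
  rw [Finset.sum_congr rfl fun i _ => h1 i, ← integral_finsetSum S hint]
  calc ∫ ω, ∑ i ∈ S, (A i).indicator (fun _ => (1 : ℝ)) ω ∂μ
      ≤ ∫ _, (N : ℝ) ∂μ := by
        apply integral_mono (integrable_finsetSum S hint) (integrable_const _)
        intro ω
        have h2 := h ω
        have h3 : ({i | i ∈ S ∧ ω ∈ A i} : Set ι) = ((S.filter fun i => ω ∈ A i) : Finset ι) := by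
          ext i; simp
        rw [h3, Set.ncard_coe_finset] at h2
        have h4 : ∑ i ∈ S, (A i).indicator (fun _ => (1 : ℝ)) ω
            = ((S.filter fun i => ω ∈ A i).card : ℝ) := by
          rw [Finset.card_filter]
          push_cast
          refine Finset.sum_congr rfl fun i _ => ?_
          by_cases hi : ω ∈ A i
          · simp [hi]
          · simp [hi]
        change ∑ i ∈ S, (A i).indicator (fun _ => (1 : ℝ)) ω ≤ (N : ℝ)
        rw [h4]
        exact_mod_cast h2
    _ = N := by simp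

theorem meas_Tri (hM : S_MEAS) (b : ℕ) (W B : Set Vx) : MeasurableSet {ω : Cf | Tri b W B ω} := by
  have hC : ∀ (V : Set Vx) (x y : Vx), Measurable fun ω : Cf => Cn b ω V x y :=
    fun V x y => measurableSet_setOfPred.1 (hM b V x y).1
  have hI : ∀ (V : Set Vx) (x : Vx), Measurable fun ω : Cf => (cl b ω V x).Infinite :=
    fun V x => measurableSet_setOfPred.1 (hM b V x x).2
  have hO : ∀ e : Ed, Measurable fun ω : Cf => ω e = true := fun e => by
    have h1 : Measurable fun ω : Cf => ω e := measurable_pi_apply e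
    have h2 : MeasurableSet ((fun ω : Cf => ω e) ⁻¹' {true}) := h1 (measurableSet_singleton true)
    exact measurableSet_setOfPred.1 h2
  refine measurableSet_setOfPred.2 ?_
  unfold Tri
  refine Measurable.and ?_ ?_
  · exact Measurable.forall fun e => Measurable.imp measurable_const (hO e)
  · refine Measurable.exists fun x => ?_
    refine Measurable.and measurable_const (Measurable.and ?_ (Measurable.and ?_ ?_))
    · exact Measurable.forall fun k => Measurable.exists fun y =>
        Measurable.and measurable_const (hC _ _ _)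
    · exact Measurable.forall fun k => hI _ _
    · exact Measurable.forall fun k => Measurable.forall fun l =>
        Measurable.imp measurable_const (hC _ _ _).not

end BkL

/-- [BK] -/
theorem bk (hM : S_MEAS) (h1 : S_BK1) (h2 : S_BK2) (h3 : S_BK3) : S_BK := by
  intro b hb p hp hp0
  by_contra hne
  have hpos : 0 < (PP Ed p hp).real {ω | Three b WC ω} :=
    lt_of_le_of_ne measureReal_nonneg (Ne.symm hne)
  obtain ⟨l, hl⟩ := h1 b hb p hp hp0 hpos
  set c := (PP Ed p hp).real {ω | Tri b WC (Blk b l l ((l : ℤ), 0) 0) ω} with hc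
  have key : ∀ n h : ℕ, l ≤ n → ((b : ℝ) ^ (n - l) * h) * c ≤ 4 * (b : ℝ) ^ n + (2 * l + 1) * h := by
    intro n h hn
    have h4 := BkL.sum_le (PP Ed p hp) (Finset.range (b ^ (n - l)) ×ˢ Finset.range h)
      (fun q => {ω | Tri b WC (Blk b l l ((l : ℤ), q.1) (l + (2 * l + 1) * q.2)) ω})
      (fun q => BkL.meas_Tri hM b WC _) (4 * b ^ n + (2 * l + 1) * h) (by
        intro ω
        refine le_trans (le_of_eq ?_) (h3 b hb l n h hn ω)
        congr 1
        ext q
        simp only [Finset.mem_product, Finset.mem_range, Set.mem_ofPred_eq, and_assoc])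
    have h5 : ∀ q ∈ Finset.range (b ^ (n - l)) ×ˢ Finset.range h,
        (PP Ed p hp).real {ω | Tri b WC (Blk b l l ((l : ℤ), q.1) (l + (2 * l + 1) * q.2)) ω} = c :=
      fun q _ => h2 b hb p hp l _ _ rfl
    rw [Finset.sum_congr rfl h5, Finset.sum_const, Finset.card_product, Finset.card_range,
      Finset.card_range, nsmul_eq_mul] at h4
    push_cast at h4
    exact h4
  -- choose `n` with `(2 l + 1) / b ^ (n - l) < c / 2`, then `h` large
  have hb1 : (1 : ℝ) < b := by exact_mod_cast (by omega : 1 < b)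
  obtain ⟨k, hk⟩ : ∃ k : ℕ, 2 * (2 * (l : ℝ) + 1) / c < (b : ℝ) ^ k :=
    pow_unbounded_of_one_lt _ hb1
  obtain ⟨h, hh⟩ : ∃ h : ℕ, 2 * (4 * (b : ℝ) ^ (l + k)) / c < h := exists_nat_gt _
  have h6 := key (l + k) h (by omega)
  have h7 : l + k - l = k := by omega
  rw [h7] at h6
  rw [div_lt_iff₀ hl] at hk hh
  have h8 : (0 : ℝ) ≤ h := Nat.cast_nonneg h
  have hbk : (1 : ℝ) ≤ (b : ℝ) ^ k := one_le_pow₀ hb1.le
  -- `b ^ k h c ≥ 2 (2 l + 1) h` and `b ^ k h c ≥ h c ≥ 2 * 4 b ^ (l + k)`
  have hhpos : (0 : ℝ) < h := by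
    by_contra h0
    have : (h : ℝ) = 0 := le_antisymm (not_lt.mp h0) h8
    rw [this, zero_mul] at hh
    have : (0 : ℝ) < 2 * (4 * (b : ℝ) ^ (l + k)) := by positivity
    linarith
  have h9 : 2 * (2 * (l : ℝ) + 1) * h < (b : ℝ) ^ k * c * h := mul_lt_mul_of_pos_right hk hhpos
  have h10 : (h : ℝ) * c ≤ (b : ℝ) ^ k * (h * c) := le_mul_of_one_le_left (by positivity) hbk
  nlinarith [h6, h9, h10, hh]

end Pool.Agent.Helper98K9.CP
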