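import Pool.Agent.Helper98K9.CP.Basic
import Pool.Agent.Helper36K9.CP.Aut

set_option autoImplicit false

namespace Pool.Agent.Helper98K9.CP

open MeasureTheory ProbabilityTheory
open scoped ENNReal NNReal

namespace Bk2L

/-- the action on edges, as an equivalence -/
def teE (σ : Vt ≃ Vt) (s : ℤ) : Ed ≃ Ed where
  toFun := te σ s
  invFun e := ((tr σ s).symm e.1, e.2)
  left_inv e := by simp [te]
  right_inv e := by simp [te]

/-- the action on configurations -/
def cfE (f : Ed ≃ Ed) : Cf ≃ᵐ Cf where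
  toFun ω e := ω (f e)
  invFun ω e := ω (f.symm e)
  left_inv ω := by funext e; simp
  right_inv ω := by funext e; simp
  measurable_toFun := measurable_pi_lambda _ fun e => measurable_pi_apply _
  measurable_invFun := measurable_pi_lambda _ fun e => measurable_pi_apply _

/-- invariance of the measure, for all sets -/
theorem real_te (hR : S_REIDX) (p : ℝ≥0) (hp : p ≤ 1) (σ : Vt ≃ Vt) (s : ℤ) (A : Set Cf) :
    (PP Ed p hp).real {ω | (fun e => ω (te σ s e)) ∈ A} = (PP Ed p hp).real A := by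
  have h := hR Ed Ed p hp (te σ s) (te_inj σ s)
  have h' : MeasurePreserving (cfE (teE σ s)) (PP Ed p hp) (PP Ed p hp) := h
  have := h'.measure_preimage_equiv A
  rw [Measure.real, Measure.real, ← this]
  rfl

theorem Tri_tr {b : ℕ} {σ : Vt ≃ Vt} (hσ : ∀ y, σ (par b y) = par b (σ y)) (s : ℤ)
    (W B : Set Vx) (ω : Cf) :
    Tri b W B (fun e => ω (te σ s e)) ↔ Tri b (tr σ s '' W) (tr σ s '' B) ω := by
  unfold Tri
  refine and_congr ?_ ?_
  · constructor
    · intro h e he
      have h1 : te σ s ((tr σ s).symm e.1, e.2) = e := by simp [te]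
      have h2 : ((tr σ s).symm e.1, e.2) ∈ edg b B := by
        constructor
        · obtain ⟨y, hy, hy'⟩ := he.1
          change (tr σ s).symm e.1 ∈ B
          rw [← hy', Equiv.symm_apply_apply]; exact hy
        · obtain ⟨y, hy, hy'⟩ := he.2
          have h3 := hd_te hσ s ((tr σ s).symm e.1, e.2)
          rw [h1, ← hy'] at h3
          rw [← (tr σ s).injective h3]; exact hy
      have h4 : ω (te σ s ((tr σ s).symm e.1, e.2)) = true := h _ h2
      rw [h1] at h4
      exact h4
    · intro h e he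
      apply h
      refine ⟨⟨e.1, he.1, rfl⟩, ?_⟩
      rw [hd_te hσ]
      exact ⟨_, he.2, rfl⟩
  · refine Equiv.exists_congr (Equiv.arrowCongr (Equiv.refl (Fin 3)) (tr σ s)) ?_
    intro x
    have hx : ∀ k, (Equiv.arrowCongr (Equiv.refl (Fin 3)) (tr σ s)) x k = tr σ s (x k) :=
      fun k => rfl
    have hd : tr σ s '' W \ tr σ s '' B = tr σ s '' (W \ B) :=
      (Set.image_sdiff (tr σ s).injective W B).symm
    refine and_congr ?_ (and_congr ?_ (and_congr ?_ ?_))
    · refine forall_congr' fun k => ?_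
      rw [hx, hd, (tr σ s).injective.mem_set_image]
    · refine forall_congr' fun k => ?_
      rw [hx]
      constructor
      · rintro ⟨y, hy, h⟩
        exact ⟨_, ⟨y, hy, rfl⟩, (Cn_tr hσ s ω W y (x k)).1 h⟩
      · rintro ⟨_, ⟨y, hy, rfl⟩, h⟩
        exact ⟨y, hy, (Cn_tr hσ s ω W y (x k)).2 h⟩
    · refine forall_congr' fun k => ?_
      rw [hx, hd]
      exact clInf_tr hσ s ω _ _
    · refine forall_congr' fun k => forall_congr' fun l => ?_
      rw [hx, hx, hd]
      exact imp_congr Iff.rfl (not_congr (Cn_tr hσ s ω _ _ _))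

/-- level preserving automorphisms preserve the canopy tree -/
theorem tr_WC (σ : Vt ≃ Vt) (hl : ∀ y, (σ y).1 = y.1) (s : ℤ) : tr σ s '' WC = WC := by
  ext y
  constructor
  · rintro ⟨y', h, rfl⟩
    change 0 ≤ (σ y'.1).1
    rw [hl]; exact h
  · intro h
    refine ⟨(tr σ s).symm y, ?_, by simp⟩
    change 0 ≤ (σ.symm y.1).1
    rw [← hl (σ.symm y.1), Equiv.apply_symm_apply]
    exact h

end Bk2L

/-- [BK2] -/
theorem bk2 (hR : S_REIDX) : S_BK2 := by
  intro b hb p hp l z h hz
  obtain ⟨σ, hσ, h1, h2⟩ := aut b hb ((l : ℤ), 0) z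
  have hl : ∀ y, (σ y).1 = y.1 := fun y => by rw [h2, hz]; simp
  rw [← Bk2L.real_te hR p hp σ h {ω | Tri b WC (Blk b l l ((l : ℤ), 0) 0) ω}]
  congr 1
  ext ω
  simp only [Set.mem_ofPred_eq]
  rw [Bk2L.Tri_tr hσ h, Bk2L.tr_WC σ hl, tr_Blk hσ, h1, zero_add]

end Pool.Agent.Helper98K9.CP
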