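import Pool.Agent.Helper98K9.CP.St

set_option autoImplicit false

namespace Pool.Agent.Helper98K9.CP

open MeasureTheory ProbabilityTheory
open scoped ENNReal NNReal

/-- [GOODP] -/
theorem goodp : S_GOODP := by
  intro p hp U a ha hU h2
  have hm : Measurable (fun ξ : Cf => (PP Ed p hp).real {ξ' | (ξ, ξ') ∈ U}) :=
    (measurable_measure_prodMk_left (ν := PP Ed p hp) hU).ennreal_toReal
  have hG : MeasurableSet (Good p hp a U) := measurableSet_le measurable_const hm
  refine ⟨hG, ?_⟩
  have h1 : ((PP Ed p hp).prod (PP Ed p hp)) U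
      ≤ (PP Ed p hp) (Good p hp a U) + ENNReal.ofReal a := by
    rw [Measure.prod_apply hU]
    calc ∫⁻ x, (PP Ed p hp) (Prod.mk x ⁻¹' U) ∂(PP Ed p hp)
        ≤ ∫⁻ x, ((Good p hp a U).indicator (fun _ => (1 : ℝ≥0∞)) x + ENNReal.ofReal a)
            ∂(PP Ed p hp) := by
          apply lintegral_mono
          intro x
          by_cases hx : x ∈ Good p hp a U
          · simp only [Set.indicator_of_mem hx]
            exact le_trans prob_le_one (by simp)
          · simp only [Set.indicator_of_notMem hx, zero_add]
            have hx' : (PP Ed p hp).real {ξ' | (x, ξ') ∈ U} < a := not_le.mp hx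
            have e : (PP Ed p hp) (Prod.mk x ⁻¹' U)
                = ENNReal.ofReal ((PP Ed p hp).real {ξ' | (x, ξ') ∈ U}) := by
              rw [Measure.real, ENNReal.ofReal_toReal (measure_ne_top _ _)]
              rfl
            rw [e]
            exact ENNReal.ofReal_le_ofReal hx'.le
      _ = (PP Ed p hp) (Good p hp a U) + ENNReal.ofReal a := by
          rw [lintegral_add_right _ measurable_const, lintegral_indicator hG]
          simp
  have h3 : (((PP Ed p hp).prod (PP Ed p hp)) U).toReal
      ≤ ((PP Ed p hp) (Good p hp a U) + ENNReal.ofReal a).toReal :=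
    ENNReal.toReal_mono (by finiteness) h1
  rw [ENNReal.toReal_add (by finiteness) (by finiteness), ENNReal.toReal_ofReal ha] at h3
  have h4 : 2 * a ≤ (((PP Ed p hp).prod (PP Ed p hp)) U).toReal := h2
  have h5 : (PP Ed p hp).real (Good p hp a U) = ((PP Ed p hp) (Good p hp a U)).toReal := rfl
  rw [h5]
  linarith

end Pool.Agent.Helper98K9.CP
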