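import Pool.Agent.Helper36K9.CP.Bk2

set_option autoImplicit false

namespace Pool.Agent.Helper98K9.CP

open MeasureTheory ProbabilityTheory
open scoped ENNReal NNReal

namespace TauL

/-- uniform lower bound of the percolation probability in the canopy tree times `ℤ` -/
theorem theta (hR : S_REIDX) {b : ℕ} (hb : 2 ≤ b) (p : ℝ≥0) (hp : p ≤ 1) (x : Vx) (a j : ℕ)
    (ha : x.1.1 = a) :
    (PP Ed p hp).real {ω | (cl b ω WN x).Infinite}
      ≤ (PP Ed p hp).real {ω | (cl b ω WC ((((a + j : ℕ) : ℤ), 0), 0)).Infinite} := by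
  obtain ⟨σ, hσ, h1, h2⟩ := aut b hb x.1 (((a + j : ℕ) : ℤ), 0)
  rw [← Bk2L.real_te hR p hp σ (-x.2) {ω | (cl b ω WN x).Infinite}]
  refine measureReal_mono ?_ (by finiteness)
  intro ω hω
  simp only [Set.mem_ofPred_eq] at hω ⊢
  rw [clInf_tr hσ] at hω
  have h3 : tr σ (-x.2) x = ((((a + j : ℕ) : ℤ), 0), 0) := by
    change (σ x.1, x.2 + -x.2) = _
    rw [h1]; simp
  rw [h3] at hω
  refine hω.mono (cl_mono ?_ fun e _ h => h)
  rintro _ ⟨y, hy, rfl⟩
  change 0 ≤ (σ y.1).1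
  rw [h2, ha]
  have : 0 ≤ y.1.1 := hy.1
  push_cast
  linarith

end TauL

/-- [TAU] -/
theorem tau (hR : S_REIDX) (hH : S_HAR) (hM : S_MEAS) (hBK : S_BK) : S_TAU := by
  intro b hb p hp hp0 x hx
  have hxW : x ∈ WN := by
    by_contra hxW
    have : {ω : Cf | (cl b ω WN x).Infinite} = ∅ := by
      ext ω
      simp only [Set.mem_ofPred_eq, Set.mem_empty_iff_false, iff_false]
      exact fun h => hxW (mem_of_infinite h)
    rw [this] at hx
    simp at hx
  obtain ⟨a, ha⟩ : ∃ a : ℕ, x.1.1 = a := ⟨x.1.1.toNat, (Int.toNat_of_nonneg hxW.1).symm⟩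
  set θ := (PP Ed p hp).real {ω | (cl b ω WN x).Infinite} with hθ
  have hθ3 : 0 < θ ^ 3 / 3 := by positivity
  obtain ⟨n, hn⟩ : ∃ n : ℕ, 1 / (θ ^ 3 / 3) ^ 2 < (2 : ℝ) ^ n :=
    pow_unbounded_of_one_lt _ (by norm_num)
  have hn' : ∀ m : ℕ, n ≤ m → ∀ r : ℝ, θ ^ 3 / 3 ≤ r → 1 < (b : ℝ) ^ m * r ^ 2 := by
    intro m hm r hr
    have h1 : (2 : ℝ) ^ n ≤ (b : ℝ) ^ m :=
      le_trans (pow_le_pow_right₀ (by norm_num) hm)
        (pow_le_pow_left₀ (by norm_num) (by exact_mod_cast hb) m)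
    have h2 : (θ ^ 3 / 3) ^ 2 ≤ r ^ 2 := pow_le_pow_left₀ hθ3.le hr 2
    have h3 : 1 < (2 : ℝ) ^ n * (θ ^ 3 / 3) ^ 2 := by
      rwa [div_lt_iff₀ (by positivity)] at hn
    calc (1 : ℝ) < (2 : ℝ) ^ n * (θ ^ 3 / 3) ^ 2 := h3
      _ ≤ (b : ℝ) ^ m * r ^ 2 := mul_le_mul h1 h2 (by positivity) (by positivity)
  set N := n + 1 with hN
  let y : ℕ → Vx := fun j => ((((a + j : ℕ) : ℤ), 0), 0)
  let E : ℕ → Set Cf := fun j => {ω | (cl b ω WC (y j)).Infinite}
  have hE : ∀ j, θ ≤ (PP Ed p hp).real (E j) := fun j => TauL.theta hR hb p hp x a j ha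
  have hEm : ∀ j, MeasurableSet (E j) := fun j => (hM b WC (y j) (y j)).2
  have hEi : ∀ j, Inc (E j) := fun j => inc_clInf WC (y j)
  have hIn : ∀ A B : Set Cf, Inc A → Inc B → Inc (A ∩ B) :=
    fun A B hA hB ω ω' h h' => ⟨hA ω ω' h h'.1, hB ω ω' h h'.2⟩
  have h1 : θ ^ 2 ≤ (PP Ed p hp).real (E 0 ∩ E N) := by
    refine le_trans ?_ (hH Ed p hp (E 0) (E N) (hEm _) (hEm _) (hEi _) (hEi _))
    rw [sq]
    exact mul_le_mul (hE _) (hE _) hx.le measureReal_nonneg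
  have h2 : θ ^ 3 ≤ (PP Ed p hp).real ((E 0 ∩ E N) ∩ E (2 * N)) := by
    refine le_trans ?_ (hH Ed p hp (E 0 ∩ E N) (E (2 * N)) ((hEm _).inter (hEm _)) (hEm _)
      (hIn _ _ (hEi _) (hEi _)) (hEi _))
    rw [pow_succ]
    exact mul_le_mul h1 (hE _) hx.le measureReal_nonneg
  let C : ℕ → ℕ → Set Cf := fun i j => {ω | Cn b ω WC (y i) (y j)}
  have h3 : (E 0 ∩ E N) ∩ E (2 * N) ⊆ {ω | Three b WC ω} ∪ (C 0 N ∪ (C 0 (2 * N) ∪ C N (2 * N))) := by
    rintro ω ⟨⟨e0, e1⟩, e2⟩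
    by_contra hcon
    simp only [Set.mem_union, not_or] at hcon
    obtain ⟨c0, c1, c2, c3⟩ := hcon
    apply c0
    refine ⟨![y 0, y N, y (2 * N)], ?_, ?_⟩
    · intro k
      fin_cases k
      · exact e0
      · exact e1
      · exact e2
    · intro k l hkl hc
      fin_cases k <;> fin_cases l
      · exact hkl rfl
      · exact c1 hc
      · exact c2 hc
      · exact c1 hc.symm
      · exact hkl rfl
      · exact c3 hc
      · exact c2 hc.symm
      · exact c3 hc.symm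
      · exact hkl rfl
  have h4 : θ ^ 3 ≤ (PP Ed p hp).real (C 0 N) + ((PP Ed p hp).real (C 0 (2 * N))
      + (PP Ed p hp).real (C N (2 * N))) := by
    calc θ ^ 3 ≤ _ := h2
      _ ≤ (PP Ed p hp).real ({ω | Three b WC ω} ∪ (C 0 N ∪ (C 0 (2 * N) ∪ C N (2 * N)))) :=
          measureReal_mono h3 (by finiteness)
      _ ≤ (PP Ed p hp).real {ω | Three b WC ω} + ((PP Ed p hp).real (C 0 N)
            + ((PP Ed p hp).real (C 0 (2 * N)) + (PP Ed p hp).real (C N (2 * N)))) := by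
          refine (measureReal_union_le _ _).trans ?_
          gcongr
          refine (measureReal_union_le _ _).trans ?_
          gcongr
          exact measureReal_union_le _ _
      _ = _ := by rw [hBK b hb p hp hp0, zero_add]
  rcases le_or_gt (θ ^ 3 / 3) ((PP Ed p hp).real (C 0 N)) with h5 | h5
  · refine ⟨a, N, by omega, ?_⟩
    have := hn' N (by omega) _ h5
    simpa only [C, y, Set.mem_ofPred_eq, add_zero] using this
  · rcases le_or_gt (θ ^ 3 / 3) ((PP Ed p hp).real (C 0 (2 * N))) with h6 | h6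
    · refine ⟨a, 2 * N, by omega, ?_⟩
      have := hn' (2 * N) (by omega) _ h6
      simpa only [C, y, Set.mem_ofPred_eq, add_zero] using this
    · refine ⟨a + N, N, by omega, ?_⟩
      have h7 : θ ^ 3 / 3 ≤ (PP Ed p hp).real (C N (2 * N)) := by linarith
      have := hn' N (by omega) _ h7
      have e : a + N + N = a + 2 * N := by ring
      rw [e]
      exact this

end Pool.Agent.Helper98K9.CP
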