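import Pool.Agent.Helper98K9.CP.St2
import Pool.Agent.Helper98K9.CP.Basic
import Pool.Agent.Helper36K9.CP.Goodp

set_option autoImplicit false

namespace Pool.Agent.Helper98K9.CP

open MeasureTheory ProbabilityTheory Filter
open scoped ENNReal NNReal

namespace UniL

theorem ae_of_real {p : ℝ≥0} {hp : p ≤ 1} {s : Set Cf} (h : (PP Ed p hp).real s = 0) :
    ∀ᵐ ω ∂(PP Ed p hp), ω ∉ s := by
  rw [measureReal_eq_zero_iff (by finiteness)] at h
  exact measure_eq_zero_iff_ae_notMem.1 h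

/-- some slab above is good -/
theorem exists_slab (hSL : S_SLABS) {R : ℕ} {p : ℝ≥0} {hp : p ≤ 1} {A : Set Cf}
    (hA : MeasurableSet A) (hD : Dep (slab R) A) {a : ℝ} (ha : 0 < a)
    (hPA : a ≤ (PP Ed p hp).real A) :
    ∀ᵐ ω ∂(PP Ed p hp), ∃ j : ℤ, 1 ≤ j ∧ sh (j * (2 * R + 1)) ω ∈ A := by
  set B : Set Cf := {ω | ∀ j : ℤ, 1 ≤ j → sh (j * (2 * R + 1)) ω ∉ A} with hB
  have hA1 : (PP Ed p hp).real A ≤ 1 := measureReal_le_one
  have h1 : ∀ n : ℕ, (PP Ed p hp).real B ≤ (1 - a) ^ n := by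
    intro n
    have h2 := hSL R p hp A hA hD (2 * (R : ℤ) + 1) le_rfl (Finset.Icc 1 (n : ℤ))
    have h3 : (Finset.Icc 1 (n : ℤ)).card = n := by simp
    rw [h3] at h2
    have h3' : B ⊆ {ω | ∀ q ∈ Finset.Icc 1 (n : ℤ), sh (q * (2 * (R : ℤ) + 1)) ω ∉ A} :=
      fun ω hω q hq => hω q (Finset.mem_Icc.1 hq).1
    calc (PP Ed p hp).real B ≤ _ := measureReal_mono h3' (by finiteness)
      _ ≤ _ := h2
      _ ≤ (1 - a) ^ n := pow_le_pow_left₀ (by linarith) (by linarith) n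
  have h4 : Tendsto (fun n : ℕ => (1 - a) ^ n) atTop (nhds 0) :=
    tendsto_pow_atTop_nhds_zero_of_lt_one (by linarith) (by linarith)
  have h5 : (PP Ed p hp).real B ≤ 0 := ge_of_tendsto' h4 h1
  have h6 := ae_of_real (le_antisymm h5 measureReal_nonneg)
  filter_upwards [h6] with ω hω
  rw [hB] at hω
  simp only [Set.mem_ofPred_eq, not_forall, not_not] at hω
  obtain ⟨j, hj, hj2⟩ := hω
  exact ⟨j, hj, hj2⟩

end UniL

/-- [UNI] -/
theorem uni (hGWI : S_GWI) (hNICE : S_NICE) (hNGOOD : S_NGOOD) (hG3 : S_G3) (hEX : S_EX)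
    (hSL : S_SLABS) (hGINF : S_GINF) : S_UNI := by
  intro b hb K R p hp hp1 hmu L hL
  have hp0 : 0 < p := by
    by_contra h0
    have h0' : p = 0 := le_antisymm (not_lt.mp h0) zero_le
    subst h0'
    simp only [mu, NNReal.coe_zero, zero_mul] at hmu
    norm_num at hmu
  obtain ⟨c, hc, hc2⟩ := hGWI b hb K R p hp hmu
  have ha : 0 < c / 2 := by positivity
  have hc1 : c ≤ 1 := (hc2 (0, 0)).trans measureReal_le_one
  have ha1 : c / 2 ≤ 1 := by linarith
  have hgood : ∀ z, MeasurableSet (Good p hp (c / 2) (RelI b K R c (mu b K R p hp) z)) ∧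
      c / 2 ≤ (PP Ed p hp).real (Good p hp (c / 2) (RelI b K R c (mu b K R p hp) z)) := by
    intro z
    refine goodp p hp _ (c / 2) ha.le (hNICE b hb K R c (mu b K R p hp) z).2.1 ?_
    have h1 : 2 * (c / 2) = c := by ring
    rw [h1]
    exact hc2 z
  have e1 := UniL.ae_of_real (hG3 b hb K R p hp (c / 2) c (mu b K R p hp) hp0 ha ha1 hc hmu
    (fun z => (hgood z).2) L hL)
  have e2 : ∀ᵐ ω ∂(PP Ed p hp), ∀ x : Vx, ω ∉ {ω : Cf | (cl b ω (TW L) x).Infinite ∧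
      ¬ ToGood b K R p hp (c / 2) c (mu b K R p hp) L x ω} := by
    rw [ae_all_iff]
    intro x
    exact UniL.ae_of_real (hEX b hb K R p hp (c / 2) c (mu b K R p hp) hp0 hp1 ha
      (fun z => (hgood z).2) L hL x)
  have hdep : Dep (slab R) (Good p hp (c / 2) (RelI b K R c (mu b K R p hp) (0, 0))) := by
    have h1 := (hNGOOD p hp (c / 2) (dsl b R (0, 0)) (RelI b K R c (mu b K R p hp) (0, 0))
      (hNICE b hb K R c (mu b K R p hp) (0, 0)).2).2.2
    intro ω ω' h h'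
    exact h1 ω ω' (fun e he => h e he.1) h'
  have e3 := UniL.exists_slab hSL (hgood (0, 0)).1 hdep ha (hgood (0, 0)).2
  filter_upwards [e1, e2, e3] with ω h1 h2 h3
  refine ⟨?_, ?_⟩
  · obtain ⟨j, hj, hj2⟩ := h3
    refine ⟨((0, 0), j * (2 * R + 1)), ?_⟩
    refine (hGINF b K R p hp (c / 2) c (mu b K R p hp) hb ha hc (by linarith) (0, 0)
      (j * (2 * R + 1)) ω hj2).mono (cl_mono ?_ fun e _ h => h)
    intro y hy
    have hy' : j * (2 * (R : ℤ) + 1) - R ≤ y.2 := hy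
    have hy0 : 0 ≤ y.2 := by nlinarith
    rcases hL with rfl | rfl
    · exact Set.mem_univ _
    · exact hy0
  · intro x y hx hy
    have gx : ToGood b K R p hp (c / 2) c (mu b K R p hp) L x ω := by
      by_contra hcon
      exact h2 x ⟨hx, hcon⟩
    have gy : ToGood b K R p hp (c / 2) c (mu b K R p hp) L y ω := by
      by_contra hcon
      exact h2 y ⟨hy, hcon⟩
    obtain ⟨z, j, hj, hjg, hjc⟩ := gx
    obtain ⟨z', j', hj', hjg', hjc'⟩ := gy
    have h4 : Cn b ω (TW L) (z, j * (2 * R + 1)) (z', j' * (2 * R + 1)) := by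
      by_contra hcon
      exact h1 ⟨z, z', j, j', hj, hj', hjg, hjg', hcon⟩
    exact hjc.trans (h4.trans hjc'.symm)

end Pool.Agent.Helper98K9.CP
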